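import Pool.Agent.Lib.LU3_h26.Struct

/-!
# DefectTwo: bases adapted to the valuation
-/

set_option autoImplicit false

open Polynomial Module

namespace Pool.Agent.LU3

open Pool.Agent.H15JM (RVal)
open Pool.Agent.LU1

universe u

variable {k Ω : Type u} [Field k] [Field Ω] [Algebra k Ω] {v : RVal Ω}

/-- A sum of elements with distinct values. -/
theorem sum_dist {ι : Type*} (s : Finset ι) (f : ι → Ω) (hf : ∀ i ∈ s, f i ≠ 0)
    (hinj : ∀ i ∈ s, ∀ j ∈ s, v (f i) = v (f j) → i = j) (hs : s.Nonempty) :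
    ∑ i ∈ s, f i ≠ 0 ∧ ∃ i ∈ s, v (∑ i ∈ s, f i) = v (f i) ∧ ∀ j ∈ s, v (f i) ≤ v (f j) := by
  classical
  induction s using Finset.induction_on with
  | empty => exact absurd hs (by simp)
  | insert a s ha ih =>
    rcases s.eq_empty_or_nonempty with rfl | hs'
    · simpa using hf a (by simp)
    obtain ⟨h1, i, hi, h2, h3⟩ := ih (fun i hi => hf i (Finset.mem_insert_of_mem hi))
      (fun i hi j hj => hinj i (Finset.mem_insert_of_mem hi) j (Finset.mem_insert_of_mem hj)) hs'
    have ha0 := hf a (Finset.mem_insert_self a s)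
    rw [Finset.sum_insert ha]
    have hne : v (f a) ≠ v (f i) := by
      intro h
      have := hinj a (Finset.mem_insert_self a s) i (Finset.mem_insert_of_mem hi) h
      rw [this] at ha
      exact ha hi
    rcases lt_or_gt_of_ne hne with hlt | hlt
    · obtain ⟨h4, h5⟩ := v.add_of_lt ha0 h1 (by rw [h2]; exact hlt)
      refine ⟨h4, a, Finset.mem_insert_self a s, h5, fun j hj => ?_⟩
      rcases Finset.mem_insert.1 hj with rfl | hj
      · exact le_rfl
      · exact hlt.le.trans (h3 j hj)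
    · obtain ⟨h4, h5⟩ := v.add_of_lt h1 ha0 (by rw [h2]; exact hlt)
      rw [add_comm] at h4 h5
      refine ⟨h4, i, Finset.mem_insert_of_mem hi, by rw [h5, h2], fun j hj => ?_⟩
      rcases Finset.mem_insert.1 hj with rfl | hj
      · exact hlt.le
      · exact h3 j hj

theorem val_smul (htriv : ∀ c : k, c ≠ 0 → v (algebraMap k Ω c) = 0) {c : k} (hc : c ≠ 0)
    {f : Ω} (hf : f ≠ 0) : v (c • f) = v f := by
  rw [Algebra.smul_def, v.map_mul (by simpa using hc) hf, htriv c hc, zero_add]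

/-- Elements with distinct values are linearly independent. -/
theorem linInd_of_dist (htriv : ∀ c : k, c ≠ 0 → v (algebraMap k Ω c) = 0) {F : Finset Ω}
    (hne : ∀ f ∈ F, f ≠ 0) (hinj : Set.InjOn v F) :
    LinearIndependent k (fun f : F => (f : Ω)) := by
  classical
  rw [linearIndependent_iff']
  intro s g hg i hi
  by_contra hgi
  set t := s.filter (fun j => g j ≠ 0) with ht
  have h1 : ∑ j ∈ t, g j • (j : Ω) = 0 := by
    rw [← hg, ht, Finset.sum_filter]
    refine Finset.sum_congr rfl fun j _ => ?_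
    by_cases hj : g j = 0
    · simp [hj]
    · simp [hj]
  have h2 := sum_dist (v := v) t (fun j => g j • (j : Ω)) (fun j hj => by
      rw [ht, Finset.mem_filter] at hj
      exact smul_ne_zero hj.2 (hne j j.2))
    (fun a ha b hb hab => by
      rw [ht, Finset.mem_filter] at ha hb
      rw [val_smul htriv ha.2 (hne a a.2), val_smul htriv hb.2 (hne b b.2)] at hab
      exact Subtype.ext (hinj a.2 b.2 hab)) ⟨i, by rw [ht, Finset.mem_filter]; exact ⟨hi, hgi⟩⟩
  exact h2.1 h1

/-- A basis adapted to the valuation. -/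
structure VBasis (v : RVal Ω) (W : Submodule k Ω) (F : Finset Ω) : Prop where
  mem : ∀ f ∈ F, f ∈ W
  ne : ∀ f ∈ F, f ≠ 0
  inj : Set.InjOn v F
  all : ∀ g ∈ W, g ≠ 0 → ∃ f ∈ F, v g = v f

theorem card_le_of_dist (htriv : ∀ c : k, c ≠ 0 → v (algebraMap k Ω c) = 0) {W : Submodule k Ω}
    [FiniteDimensional k W] {F : Finset Ω} (hmem : ∀ f ∈ F, f ∈ W)
    (hne : ∀ f ∈ F, f ≠ 0) (hinj : Set.InjOn v F) : F.card ≤ finrank k W := by
  have h1 := linInd_of_dist htriv hne hinj
  have h2 : LinearIndependent k (fun f : F => (⟨f, hmem f f.2⟩ : W)) := by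
    refine LinearIndependent.of_comp W.subtype ?_
    exact h1
  have h3 := h2.fintype_card_le_finrank
  rwa [Fintype.card_coe] at h3

theorem VBasis.exists (htriv : ∀ c : k, c ≠ 0 → v (algebraMap k Ω c) = 0) (W : Submodule k Ω)
    [FiniteDimensional k W] : ∃ F : Finset Ω, VBasis v W F := by
  classical
  have hex : ∃ m : ℕ, ∃ F : Finset Ω, (∀ f ∈ F, f ∈ W) ∧ (∀ f ∈ F, f ≠ 0) ∧ Set.InjOn v F ∧
      F.card + m = finrank k W := ⟨finrank k W, ∅, by simp⟩
  obtain ⟨F, h1, h2, h3, h4⟩ := Nat.find_spec hex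
  refine ⟨F, h1, h2, h3, fun g hg hg0 => ?_⟩
  by_contra hcon
  push Not at hcon
  have hgF : g ∉ F := fun h => hcon g h rfl
  have h5 : ∀ f ∈ insert g F, f ∈ W := by
    intro f hf
    rcases Finset.mem_insert.1 hf with rfl | hf
    · exact hg
    · exact h1 f hf
  have h6 : ∀ f ∈ insert g F, f ≠ 0 := by
    intro f hf
    rcases Finset.mem_insert.1 hf with rfl | hf
    · exact hg0
    · exact h2 f hf
  have h7 : Set.InjOn v (insert g F : Finset Ω) := by
    intro a ha b hb hab
    rw [Finset.coe_insert, Set.mem_insert_iff] at ha hb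
    rcases ha with rfl | ha <;> rcases hb with rfl | hb
    · rfl
    · exact absurd hab (hcon b hb)
    · exact absurd hab.symm (hcon a ha)
    · exact h3 ha hb hab
  have h8 := card_le_of_dist htriv h5 h6 h7
  rw [Finset.card_insert_of_notMem hgF] at h8
  refine Nat.find_min hex (m := finrank k W - (F.card + 1)) ?_ ⟨insert g F, h5, h6, h7, ?_⟩
  · omega
  · rw [Finset.card_insert_of_notMem hgF]
    omega

namespace VBasis

variable {W : Submodule k Ω} {F : Finset Ω}

theorem le_span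
    (hres : ∀ g : Ω, g ≠ 0 → v g = 0 → ∃ c : k, c ≠ 0 ∧ VPos v (g - algebraMap k Ω c))
    (h : VBasis v W F) : W ≤ Submodule.span k (F : Set Ω) := by
  classical
  intro g hg
  induction hm : (F.filter (fun f => v g ≤ v f)).card using Nat.strong_induction_on
    generalizing g with
  | _ m ih =>
    by_cases hg0 : g = 0
    · rw [hg0]; exact Submodule.zero_mem _
    obtain ⟨f, hf, hgf⟩ := h.all g hg hg0
    have hf0 := h.ne f hf
    obtain ⟨c, hc, hc'⟩ := hres (g / f) (div_ne_zero hg0 hf0) (by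
      rw [v.map_div hg0 hf0, hgf, sub_self])
    have h1 : g = (g - c • f) + c • f := by ring
    have h2 : g - c • f ∈ W := W.sub_mem hg (W.smul_mem c (h.mem f hf))
    rw [h1]
    refine Submodule.add_mem _ ?_ (Submodule.smul_mem _ _ (Submodule.subset_span hf))
    by_cases h0 : g - c • f = 0
    · rw [h0]; exact Submodule.zero_mem _
    have h3 : g - c • f = f * (g / f - algebraMap k Ω c) := by
      rw [mul_sub, mul_div_cancel₀ _ hf0, Algebra.smul_def]; ring
    have h4 : g / f - algebraMap k Ω c ≠ 0 := by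
      intro h5
      rw [h5, mul_zero] at h3
      exact h0 h3
    have h5 : v f < v (g - c • f) := by
      rw [h3, v.map_mul hf0 h4]
      have := hc' h4
      linarith
    refine ih _ ?_ h2 rfl
    rw [← hm]
    refine Finset.card_lt_card ?_
    rw [Finset.ssubset_iff_of_subset]
    · refine ⟨f, ?_, ?_⟩
      · rw [Finset.mem_filter]
        exact ⟨hf, hgf.le⟩
      · rw [Finset.mem_filter]
        rintro ⟨-, h6⟩
        linarith
    · intro a ha
      rw [Finset.mem_filter] at ha ⊢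
      exact ⟨ha.1, by linarith [ha.2]⟩

theorem card_eq (htriv : ∀ c : k, c ≠ 0 → v (algebraMap k Ω c) = 0)
    (hres : ∀ g : Ω, g ≠ 0 → v g = 0 → ∃ c : k, c ≠ 0 ∧ VPos v (g - algebraMap k Ω c))
    [FiniteDimensional k W] (h : VBasis v W F) : F.card = finrank k W := by
  apply le_antisymm (card_le_of_dist htriv h.mem h.ne h.inj)
  have h1 := h.le_span hres
  have h2 : finrank k W ≤ finrank k (Submodule.span k (F : Set Ω)) :=
    Submodule.finrank_mono h1
  exact h2.trans (finrank_span_finset_le_card F)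

/-- The part of the basis below a subspace. -/
theorem card_filter (htriv : ∀ c : k, c ≠ 0 → v (algebraMap k Ω c) = 0)
    (hres : ∀ g : Ω, g ≠ 0 → v g = 0 → ∃ c : k, c ≠ 0 ∧ VPos v (g - algebraMap k Ω c))
    (h : VBasis v W F) {W' : Submodule k Ω} [FiniteDimensional k W'] (hW' : W' ≤ W)
    [DecidablePred fun f : Ω => ∃ g ∈ W', g ≠ 0 ∧ v f ≤ v g] :
    finrank k W' ≤ (F.filter (fun f => ∃ g ∈ W', g ≠ 0 ∧ v f ≤ v g)).card := by
  classical
  obtain ⟨F', hF'⟩ := VBasis.exists htriv W'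
  rw [← hF'.card_eq htriv hres]
  have h1 : ∀ g ∈ F', ∃ f ∈ F, v g = v f := fun g hg =>
    h.all g (hW' (hF'.mem g hg)) (hF'.ne g hg)
  choose! φ hφ hφ' using h1
  refine Finset.card_le_card_of_injOn φ ?_ ?_
  · intro g hg
    rw [Finset.mem_coe, Finset.mem_filter]
    exact ⟨hφ g hg, g, hF'.mem g hg, hF'.ne g hg, (hφ' g hg).ge⟩
  · intro a ha b hb hab
    apply hF'.inj ha hb
    rw [hφ' a ha, hφ' b hb, hab]

end VBasis

/-- The positive part of `f⁻¹ W`. -/
def WD (v : RVal Ω) (W : Submodule k Ω) (f : Ω) : Set Ω := {h | f * h ∈ W ∧ VPos v h}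

theorem WD_le {W : Submodule k Ω} {K₀ : IntermediateField k Ω} (hW : ∀ g ∈ W, g ∈ K₀)
    {f : Ω} (hf : f ∈ W) (hf0 : f ≠ 0) : IntermediateField.adjoin k (WD v W f) ≤ K₀ := by
  rw [IntermediateField.adjoin_le_iff]
  rintro h ⟨h1, -⟩
  have h2 : h = (f * h) / f := by rw [mul_div_cancel_left₀ _ hf0]
  rw [h2]
  exact div_mem (hW _ h1) (hW _ hf)

/-- If `g, g t ∈ W`, `v t > 0`, `v g ≥ v f`, then `t ∈ k(f⁻¹ W)₊`. -/
theorem mem_adjoin_WD
    (hres : ∀ g : Ω, g ≠ 0 → v g = 0 → ∃ c : k, c ≠ 0 ∧ VPos v (g - algebraMap k Ω c))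
    {W : Submodule k Ω} {f g t : Ω} (hf : f ∈ W) (hf0 : f ≠ 0) (hg : g ∈ W) (hg0 : g ≠ 0)
    (hgt : g * t ∈ W) (hvg : v f ≤ v g) (ht : VPos v t) :
    t ∈ IntermediateField.adjoin k (WD v W f) := by
  by_cases ht0 : t = 0
  · rw [ht0]; exact zero_mem _
  have h1 : g / f ∈ IntermediateField.adjoin k (WD v W f) := by
    rcases hvg.lt_or_eq with hlt | heq
    · refine IntermediateField.subset_adjoin _ _ ⟨by rw [mul_div_cancel₀ _ hf0]; exact hg, ?_⟩
      intro _
      rw [v.map_div hg0 hf0]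
      linarith
    · obtain ⟨c, hc, hc'⟩ := hres (g / f) (div_ne_zero hg0 hf0) (by
        rw [v.map_div hg0 hf0, heq, sub_self])
      have h2 : g / f = (g / f - algebraMap k Ω c) + algebraMap k Ω c := by ring
      rw [h2]
      refine add_mem (IntermediateField.subset_adjoin _ _ ⟨?_, hc'⟩)
        (IntermediateField.algebraMap_mem _ c)
      have h3 : f * (g / f - algebraMap k Ω c) = g - c • f := by
        rw [mul_sub, mul_div_cancel₀ _ hf0, Algebra.smul_def]; ring
      rw [h3]
      exact W.sub_mem hg (W.smul_mem c hf)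
  have h2 : g * t / f ∈ IntermediateField.adjoin k (WD v W f) := by
    refine IntermediateField.subset_adjoin _ _ ⟨by rw [mul_div_cancel₀ _ hf0]; exact hgt, ?_⟩
    intro _
    rw [v.map_div (mul_ne_zero hg0 ht0) hf0, v.map_mul hg0 ht0]
    have := ht ht0
    linarith
  have h3 : t = (g * t / f) / (g / f) := by
    field_simp
  rw [h3]
  exact div_mem h2 h1

end Pool.Agent.LU3
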