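import Mathlib

/-!
# DefectTwo: the pure power lemma (the algebraic core of the polygon lemma)

`G = Z ^ m + A_1 Z ^ (m - 1) + ... + A_m`, `A_i = P_i / X ^ (a_i)`, the exponents of `A_i` lie in
`[- i t₀, i t₁]`, `t₀ < 1`. If all the coefficients `A'_i`, `i ≥ 1`, of `G (Z + B)` are divisible by
`φ ^ (i s)`, where `deg B < s deg φ` and `t₀ + t₁ < s deg φ`, then `G = (Z - B) ^ m`.
-/

set_option autoImplicit false

open Polynomial Finset

namespace Pool.Agent.LU3

/-- The coefficient of `Z ^ (m - i)` in `G (Z + B)`, multiplied by `X ^ (a i)`. -/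
noncomputable def ppCoeff {κ : Type*} [Field κ] (m : ℕ) (a : ℕ → ℕ) (P : ℕ → κ[X]) (B : κ[X])
    (i : ℕ) : κ[X] :=
  ∑ j ∈ range (i + 1), ((m - j).choose (i - j) : κ[X]) * P j * X ^ (a i - a j) * B ^ (i - j)

theorem pp_zero {κ : Type*} [Field κ] (m : ℕ) (t₀ t₁ : ℝ) (ht₀' : t₀ < 1)
    (a : ℕ → ℕ) (ha : ∀ i, (a i : ℝ) ≤ i * t₀) (hmono : Monotone a) (P : ℕ → κ[X])
    (hdeg : ∀ i, P i ≠ 0 → ((P i).natDegree : ℝ) ≤ a i + i * t₁)
    (φ : κ[X]) (s : ℕ) (hs : t₀ + t₁ < s * φ.natDegree) (B : κ[X])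
    (hB : B.natDegree < s * φ.natDegree) (i : ℕ) (hi : 1 ≤ i)
    (hdiv : φ ^ (i * s) ∣ ppCoeff m a P B i) : ppCoeff m a P B i = 0 := by
  by_contra hne
  have h1 : (i * s) * φ.natDegree ≤ (ppCoeff m a P B i).natDegree := by
    rw [← natDegree_pow]
    exact natDegree_le_of_dvd hdiv hne
  have h2 : (ppCoeff m a P B i).natDegree < (i * s) * φ.natDegree := by
    have hpos : 0 < (i * s) * φ.natDegree := by
      have h3 : 0 < s * φ.natDegree := lt_of_le_of_lt (Nat.zero_le _) hB
      have h4 : (i * s) * φ.natDegree = i * (s * φ.natDegree) := by ring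
      rw [h4]
      exact Nat.mul_pos hi h3
    refine lt_of_le_of_lt (natDegree_sum_le_of_forall_le (range (i + 1))
      (n := (i * s) * φ.natDegree - 1) _ ?_) (Nat.sub_lt hpos one_pos)
    intro j hj
    have hji : j ≤ i := Nat.lt_succ_iff.1 (mem_range.1 hj)
    by_cases hP : P j = 0
    · simp [hP]
    refine Nat.le_sub_one_of_lt ?_
    have h5 : (((m - j).choose (i - j) : κ[X]) * P j * X ^ (a i - a j) * B ^ (i - j)).natDegree ≤
        (P j).natDegree + (a i - a j) + (i - j) * B.natDegree := by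
      refine (natDegree_mul_le).trans (Nat.add_le_add ((natDegree_mul_le).trans
        (Nat.add_le_add ((natDegree_mul_le).trans ?_) ?_)) (natDegree_pow_le))
      · rw [natDegree_natCast, zero_add]
      · exact (natDegree_X_pow_le _)
    refine lt_of_le_of_lt h5 ?_
    have h6 := hdeg j hP
    have h7 : a j ≤ a i := hmono hji
    have h8 : ((a i - a j : ℕ) : ℝ) = a i - a j := by rw [Nat.cast_sub h7]
    have h9 : ((i - j : ℕ) : ℝ) = (i : ℝ) - j := by rw [Nat.cast_sub hji]
    have h10 : (B.natDegree : ℝ) ≤ s * φ.natDegree - 1 := by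
      have : B.natDegree + 1 ≤ s * φ.natDegree := hB
      have h : ((B.natDegree + 1 : ℕ) : ℝ) ≤ ((s * φ.natDegree : ℕ) : ℝ) := by exact_mod_cast this
      push_cast at h
      linarith
    have h11 : (j : ℝ) ≤ i := by exact_mod_cast hji
    have h12 : (0 : ℝ) ≤ j := by positivity
    have hgoal : (((P j).natDegree + (a i - a j) + (i - j) * B.natDegree : ℕ) : ℝ) <
        (((i * s) * φ.natDegree : ℕ) : ℝ) := by
      push_cast [h8, h9]
      have h13 : ((i : ℝ) - j) * B.natDegree ≤ (i - j) * (s * φ.natDegree - 1) :=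
        mul_le_mul_of_nonneg_left h10 (by linarith)
      have h14 := ha i
      have hi' : (1 : ℝ) ≤ i := by exact_mod_cast hi
      rcases eq_or_lt_of_le h12 with h0 | h0
      · rw [← h0] at h6 h13 ⊢
        nlinarith
      · nlinarith
    exact_mod_cast hgoal
  exact absurd h1 (not_le.2 h2)

/-- The pure power lemma. -/
theorem pp {κ : Type*} [Field κ] (m : ℕ) (t₀ t₁ : ℝ) (ht₀' : t₀ < 1)
    (a : ℕ → ℕ) (ha : ∀ i, (a i : ℝ) ≤ i * t₀) (ha0 : a 0 = 0) (hmono : Monotone a)
    (P : ℕ → κ[X]) (hP0 : P 0 = 1)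
    (hdeg : ∀ i, P i ≠ 0 → ((P i).natDegree : ℝ) ≤ a i + i * t₁)
    (φ : κ[X]) (s : ℕ) (hs : t₀ + t₁ < s * φ.natDegree) (B : κ[X])
    (hB : B.natDegree < s * φ.natDegree)
    (hdiv : ∀ i, 1 ≤ i → i ≤ m → φ ^ (i * s) ∣ ppCoeff m a P B i) :
    (∀ i, i ≤ m → P i = (m.choose i : κ[X]) * (-B) ^ i * X ^ (a i)) ∧
      (0 < m → B ≠ 0 → (B.natDegree : ℝ) ≤ t₁) := by
  have hz : ∀ i, 1 ≤ i → i ≤ m → ppCoeff m a P B i = 0 := fun i hi him =>
    pp_zero m t₀ t₁ ht₀' a ha hmono P hdeg φ s hs B hB i hi (hdiv i hi him)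
  have key : ∀ i, i ≤ m → P i = (m.choose i : κ[X]) * (-B) ^ i * X ^ (a i) := by
    intro i
    induction i using Nat.strong_induction_on with
    | _ i ih =>
      intro him
      rcases Nat.eq_zero_or_pos i with h0 | h0
      · rw [h0, hP0, ha0]
        simp
      have h1 := hz i h0 him
      rw [ppCoeff, sum_range_succ] at h1
      simp only [Nat.sub_self, Nat.choose_zero_right, Nat.cast_one, one_mul, pow_zero, mul_one]
        at h1
      have h2 : ∀ j ∈ range i,
          ((m - j).choose (i - j) : κ[X]) * P j * X ^ (a i - a j) * B ^ (i - j) =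
          ((m.choose i : κ[X]) * B ^ i * X ^ (a i)) * ((i.choose j : κ[X]) * (-1) ^ j) := by
        intro j hj
        have hji : j < i := mem_range.1 hj
        rw [ih j hji (hji.le.trans him)]
        have h3 : X ^ (a j) * X ^ (a i - a j) = (X ^ (a i) : κ[X]) := by
          rw [← pow_add, Nat.add_sub_cancel' (hmono hji.le)]
        have h4 : (-B) ^ j * B ^ (i - j) = (-1) ^ j * B ^ i := by
          rw [neg_pow, mul_assoc, ← pow_add, Nat.add_sub_cancel' hji.le]
        have h5 : ((m - j).choose (i - j) : κ[X]) * (m.choose j : κ[X]) =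
            (m.choose i : κ[X]) * (i.choose j : κ[X]) := by
          have := Nat.choose_mul (n := m) (k := i) (s := j) hji.le
          rw [mul_comm, ← Nat.cast_mul, ← Nat.cast_mul, this]
        calc ((m - j).choose (i - j) : κ[X]) * ((m.choose j : κ[X]) * (-B) ^ j * X ^ (a j)) *
              X ^ (a i - a j) * B ^ (i - j)
            = (((m - j).choose (i - j) : κ[X]) * (m.choose j : κ[X])) *
              ((-B) ^ j * B ^ (i - j)) * (X ^ (a j) * X ^ (a i - a j)) := by ring
          _ = _ := by rw [h3, h4, h5]; ring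
      rw [sum_congr rfl h2, ← mul_sum] at h1
      have h6 : ∑ j ∈ range i, ((i.choose j : κ[X]) * (-1) ^ j) = - (-1) ^ i := by
        have h7 : ∑ j ∈ range (i + 1), ((i.choose j : κ[X]) * (-1) ^ j) = 0 := by
          have h8 := (add_pow (-1 : κ[X]) 1 i).symm
          simp only [one_pow, mul_one] at h8
          rw [neg_add_cancel, zero_pow h0.ne'] at h8
          rw [← h8]
          exact sum_congr rfl fun j _ => by ring
        rw [sum_range_succ, Nat.choose_self, Nat.cast_one, one_mul] at h7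
        exact eq_neg_of_add_eq_zero_left h7
      rw [h6] at h1
      have h9 : P i = (m.choose i : κ[X]) * B ^ i * X ^ (a i) * (-1) ^ i := by
        linear_combination h1
      rw [h9, neg_pow B i]
      ring
  refine ⟨key, fun hm hB0 => ?_⟩
  have h1 := key m le_rfl
  rw [Nat.choose_self, Nat.cast_one, one_mul] at h1
  have hne : P m ≠ 0 := by
    rw [h1]
    exact mul_ne_zero (pow_ne_zero _ (neg_ne_zero.2 hB0)) (pow_ne_zero _ X_ne_zero)
  have h2 := hdeg m hne
  rw [h1, natDegree_mul (pow_ne_zero _ (neg_ne_zero.2 hB0)) (pow_ne_zero _ X_ne_zero),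
    natDegree_pow, natDegree_neg, natDegree_X_pow] at h2
  push_cast at h2
  have hm' : (0 : ℝ) < m := by exact_mod_cast hm
  have h3 : (m : ℝ) * B.natDegree ≤ m * t₁ := by linarith
  exact le_of_mul_le_mul_left h3 hm'

end Pool.Agent.LU3
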