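import Pool.Agent.Lib.LU1_h15.Basic

/-!
# DefectTwo, entry: the Perron argument

`E = k(w_1, ..., w_n)`, `v (w_i) > 0`. If the value group of `E` meets the line of `v (w_a)` in a
cyclic group and does not lie in this line, then `E` has generators `w'` of positive value two of
which have rationally independent values.
-/

set_option autoImplicit false

open Polynomial

namespace Pool.Agent.LU3

open Pool.Agent.H15JM (RVal)
open Pool.Agent.LU1

universe u

variable {k Ω : Type u} [Field k] [Field Ω] [Algebra k Ω] {v : RVal Ω} {n : ℕ}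

/-- The standing assumptions: `v` is trivial on `k`, has residue field `k`, and `Ω` has
transcendence degree `n` over `k`. -/
structure Ctx0 (k : Type u) {Ω : Type u} [Field k] [Field Ω] [Algebra k Ω] (v : RVal Ω)
    (n : ℕ) : Prop where
  triv : ∀ c : k, c ≠ 0 → v (algebraMap k Ω c) = 0
  res : ∀ g : Ω, g ≠ 0 → v g = 0 → ∃ c : k, c ≠ 0 ∧ VPos v (g - algebraMap k Ω c)
  trdeg : Algebra.trdeg k Ω = n

/-- `w` is a system of generators of positive value of the field `E`. -/
structure GenSys (v : RVal Ω) (E : IntermediateField k Ω) (w : Fin n → Ω) : Prop where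
  gen : IntermediateField.adjoin k (Set.range w) = E
  pos : ∀ i, VPos v (w i)

section Basic

variable {E : IntermediateField k Ω} {w : Fin n → Ω}

theorem ind_of_gen (h : Ctx0 k v n) (halg : ∀ g : Ω, IsAlgebraic E g)
    (hw : IntermediateField.adjoin k (Set.range w) = E) : AlgebraicIndependent k w := by
  subst hw
  have h1 : Algebra.IsAlgebraic (Algebra.adjoin k (Set.range w)) Ω := by
    constructor
    intro x
    rw [← IntermediateField.isAlgebraic_adjoin_iff]
    exact halg x
  refine (Algebra.IsAlgebraic.isTranscendenceBasis_of_lift_le_trdeg_of_finite k w ?_).1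
  rw [h.trdeg]
  simp

theorem ne_of_gen (h : Ctx0 k v n) (halg : ∀ g : Ω, IsAlgebraic E g)
    (hw : IntermediateField.adjoin k (Set.range w) = E) (i : Fin n) : w i ≠ 0 :=
  (ind_of_gen h halg hw).ne_zero i

theorem GenSys.val_pos (h : Ctx0 k v n) (halg : ∀ g : Ω, IsAlgebraic E g)
    (hw : GenSys v E w) (i : Fin n) : 0 < v (w i) :=
  hw.pos i (ne_of_gen h halg hw.gen i)

/-- Replacing one generator by another one that gives it back. -/
theorem adjoin_update {a b : Fin n} (hab : a ≠ b) (t : Ω)
    (h1 : t ∈ IntermediateField.adjoin k (Set.range w))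
    (h2 : w b ∈ IntermediateField.adjoin k ({w a, t} : Set Ω)) :
    IntermediateField.adjoin k (Set.range (Function.update w b t)) =
      IntermediateField.adjoin k (Set.range w) := by
  apply le_antisymm
  · rw [IntermediateField.adjoin_le_iff]
    rintro _ ⟨i, rfl⟩
    by_cases hi : i = b
    · subst hi
      simpa using h1
    · rw [Function.update_of_ne hi]
      exact IntermediateField.subset_adjoin _ _ ⟨i, rfl⟩
  · rw [IntermediateField.adjoin_le_iff]
    rintro _ ⟨i, rfl⟩
    by_cases hi : i = b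
    · subst hi
      have h3 : IntermediateField.adjoin k ({w a, t} : Set Ω) ≤
          IntermediateField.adjoin k (Set.range (Function.update w i t)) := by
        rw [IntermediateField.adjoin_le_iff]
        rintro x (rfl | rfl)
        · exact IntermediateField.subset_adjoin _ _ ⟨a, Function.update_of_ne hab _ _⟩
        · exact IntermediateField.subset_adjoin _ _ ⟨i, Function.update_self _ _ _⟩
      exact h3 h2
    · exact IntermediateField.subset_adjoin _ _ ⟨i, Function.update_of_ne hi _ _⟩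

/-- The monomial step `w_b ↦ w_b / w_a ^ q`. -/
theorem GenSys.div {a b : Fin n} (hab : a ≠ b) (h : Ctx0 k v n)
    (halg : ∀ g : Ω, IsAlgebraic E g) (hw : GenSys v E w) (q : ℕ)
    (hq : q * v (w a) < v (w b)) : GenSys v E (Function.update w b (w b / w a ^ q)) := by
  have ha0 := ne_of_gen h halg hw.gen a
  have hb0 := ne_of_gen h halg hw.gen b
  have hma : w a ∈ IntermediateField.adjoin k (Set.range w) :=
    IntermediateField.subset_adjoin _ _ ⟨a, rfl⟩
  have hmb : w b ∈ IntermediateField.adjoin k (Set.range w) :=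
    IntermediateField.subset_adjoin _ _ ⟨b, rfl⟩
  refine ⟨?_, ?_⟩
  · rw [adjoin_update hab _ (div_mem hmb (pow_mem hma q)), hw.gen]
    have h1 : w b = (w b / w a ^ q) * w a ^ q := by
      rw [div_mul_cancel₀ _ (pow_ne_zero q ha0)]
    rw [h1]
    exact mul_mem (IntermediateField.subset_adjoin _ _ (by rw [← h1]; simp))
      (pow_mem (IntermediateField.subset_adjoin _ _ (by simp)) q)
  · intro i
    by_cases hi : i = b
    · subst hi
      rw [Function.update_self]
      intro _
      rw [v.map_div hb0 (pow_ne_zero q ha0), v.map_pow ha0]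
      linarith
    · rw [Function.update_of_ne hi]
      exact hw.pos i

/-- The translation step `w_b ↦ w_b / w_a ^ q - c`. -/
theorem GenSys.trans {a b : Fin n} (hab : a ≠ b) (h : Ctx0 k v n)
    (halg : ∀ g : Ω, IsAlgebraic E g) (hw : GenSys v E w) (q : ℕ)
    (hq : v (w b) = q * v (w a)) :
    ∃ c : k, c ≠ 0 ∧ GenSys v E (Function.update w b (w b / w a ^ q - algebraMap k Ω c)) := by
  have ha0 := ne_of_gen h halg hw.gen a
  have hb0 := ne_of_gen h halg hw.gen b
  have hma : w a ∈ IntermediateField.adjoin k (Set.range w) :=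
    IntermediateField.subset_adjoin _ _ ⟨a, rfl⟩
  have hmb : w b ∈ IntermediateField.adjoin k (Set.range w) :=
    IntermediateField.subset_adjoin _ _ ⟨b, rfl⟩
  have h0 : w b / w a ^ q ≠ 0 := div_ne_zero hb0 (pow_ne_zero q ha0)
  have hv : v (w b / w a ^ q) = 0 := by
    rw [v.map_div hb0 (pow_ne_zero q ha0), v.map_pow ha0, hq, sub_self]
  obtain ⟨c, hc0, hc⟩ := h.res _ h0 hv
  refine ⟨c, hc0, ?_, ?_⟩
  · rw [adjoin_update hab _ (sub_mem (div_mem hmb (pow_mem hma q))
      (IntermediateField.algebraMap_mem _ c)), hw.gen]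
    have h1 : w b = ((w b / w a ^ q - algebraMap k Ω c) + algebraMap k Ω c) * w a ^ q := by
      rw [sub_add_cancel, div_mul_cancel₀ _ (pow_ne_zero q ha0)]
    rw [h1]
    exact mul_mem (add_mem (IntermediateField.subset_adjoin _ _ (by rw [← h1]; simp))
      (IntermediateField.algebraMap_mem _ c))
      (pow_mem (IntermediateField.subset_adjoin _ _ (by simp)) q)
  · intro i
    by_cases hi : i = b
    · subst hi
      rw [Function.update_self]
      exact hc
    · rw [Function.update_of_ne hi]
      exact hw.pos i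

end Basic

/-- `γ` is a rational multiple of `η`. -/
def OnL (η γ : ℝ) : Prop := ∃ m : ℕ, 0 < m ∧ ∃ l : ℤ, (m : ℝ) * γ = l * η

theorem OnL.self (η : ℝ) : OnL η η := ⟨1, one_pos, 1, by simp⟩

theorem OnL.int_mul {η γ : ℝ} (h : OnL η γ) (l : ℤ) : OnL η (l * γ) := by
  obtain ⟨m, hm, l', hl⟩ := h
  refine ⟨m, hm, l * l', ?_⟩
  push_cast
  linear_combination (l : ℝ) * hl

theorem OnL.add {η γ δ : ℝ} (h : OnL η γ) (h' : OnL η δ) : OnL η (γ + δ) := by
  obtain ⟨m, hm, l, hl⟩ := h
  obtain ⟨m', hm', l', hl'⟩ := h'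
  refine ⟨m * m', Nat.mul_pos hm hm', l * m' + l' * m, ?_⟩
  push_cast
  linear_combination (m' : ℝ) * hl + (m : ℝ) * hl'

theorem OnL.of_int_mul {η γ : ℝ} {l : ℤ} (hl : l ≠ 0) (h : OnL η (l * γ)) : OnL η γ := by
  obtain ⟨m, hm, l', hl'⟩ := h
  refine ⟨m * l.natAbs, Nat.mul_pos hm (Int.natAbs_pos.2 hl), l' * l.sign, ?_⟩
  have h1 : ((l.natAbs : ℕ) : ℝ) = (l.sign : ℝ) * l := by
    have h2 : ((l.natAbs : ℤ)) = l.sign * l := (Int.sign_mul_self_eq_natAbs l).symm
    have h3 : ((l.natAbs : ℤ) : ℝ) = ((l.sign * l : ℤ) : ℝ) := by rw [h2]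
    rw [Int.cast_natCast, Int.cast_mul] at h3
    exact h3
  push_cast
  rw [h1]
  linear_combination (l.sign : ℝ) * hl'

/-- Two of the values of `w` are rationally independent. -/
def Indep2 (v : RVal Ω) (w : Fin n → Ω) : Prop :=
  ∃ a b, ∀ p q : ℤ, (p : ℝ) * v (w a) + q * v (w b) = 0 → p = 0 ∧ q = 0

theorem onL_of_not_indep {E : IntermediateField k Ω} {w : Fin n → Ω} {η : ℝ}
    (h : Ctx0 k v n) (halg : ∀ g : Ω, IsAlgebraic E g) (hw : GenSys v E w)
    (hno : ¬ Indep2 v w) {a : Fin n} (ha : OnL η (v (w a))) (b : Fin n) : OnL η (v (w b)) := by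
  unfold Indep2 at hno
  push Not at hno
  obtain ⟨p, q, h1, h2⟩ := hno a b
  have hpa := hw.val_pos h halg a
  have hpb := hw.val_pos h halg b
  have hq : q ≠ 0 := by
    rintro rfl
    have h3 : (p : ℝ) * v (w a) = 0 := by simpa using h1
    have h4 : (p : ℝ) = 0 := by
      rcases mul_eq_zero.1 h3 with h5 | h5
      · exact h5
      · exact absurd h5 hpa.ne'
    exact h2 (by exact_mod_cast h4) rfl
  refine OnL.of_int_mul (l := q) hq ?_
  have h3 : (q : ℝ) * v (w b) = (-p : ℤ) * v (w a) := by
    push_cast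
    linear_combination h1
  rw [h3]
  exact ha.int_mul _

/-- The value of a polynomial in an element of positive value. -/
theorem val_aeval (htriv : ∀ c : k, c ≠ 0 → v (algebraMap k Ω c) = 0) {t : Ω} (ht : t ≠ 0)
    (hpos : 0 < v t) {g : k[X]} (hg : g ≠ 0) :
    aeval t g ≠ 0 ∧ ∃ e : ℕ, v (aeval t g) = e * v t := by
  have key : ∀ d : ℕ, ∀ g : k[X], g.natDegree ≤ d → g ≠ 0 →
      aeval t g ≠ 0 ∧ ∃ e : ℕ, v (aeval t g) = e * v t := by
    intro d
    induction d with
    | zero =>
      intro g hd hg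
      have h1 : g = C (g.coeff 0) := eq_C_of_natDegree_le_zero hd
      have h2 : g.coeff 0 ≠ 0 := by
        intro h0
        rw [h0, C_0] at h1
        exact hg h1
      rw [h1, aeval_C]
      exact ⟨by simpa using h2, 0, by rw [htriv _ h2]; simp⟩
    | succ d ih =>
      intro g hd hg
      by_cases hX : g.divX = 0
      · have h1 : g = C (g.coeff 0) := by
          conv_lhs => rw [← divX_mul_X_add g, hX, zero_mul, zero_add]
        exact ih g (by rw [h1, natDegree_C]; exact Nat.zero_le _) hg
      have h1 : g.divX.natDegree ≤ d := by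
        rw [natDegree_divX_eq_natDegree_tsub_one]
        omega
      obtain ⟨h2, e, h3⟩ := ih _ h1 hX
      have h4 : aeval t g = aeval t g.divX * t + algebraMap k Ω (g.coeff 0) := by
        conv_lhs => rw [← divX_mul_X_add g]
        simp
      have h5 : aeval t g.divX * t ≠ 0 := mul_ne_zero h2 ht
      have h6 : v (aeval t g.divX * t) = ((e + 1 : ℕ) : ℝ) * v t := by
        rw [v.map_mul h2 ht, h3]
        push_cast
        ring
      by_cases hc : g.coeff 0 = 0
      · rw [h4, hc, _root_.map_zero, add_zero]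
        exact ⟨h5, e + 1, h6⟩
      · have h7 : VPos v (aeval t g.divX * t) := by
          intro _
          rw [h6]
          positivity
        have h8 := val_add_vpos (v := v) (f := algebraMap k Ω (g.coeff 0))
          (by simpa using hc) (htriv _ hc) h7
        rw [h4, add_comm]
        exact ⟨h8.1, 0, by rw [h8.2]; simp⟩
  exact key _ g le_rfl hg

section Main

variable {E : IntermediateField k Ω}

/-- All coordinates are multiples of the coordinate `w_a`, for ever: expansion to order `N`. -/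
theorem perron_expand (h : Ctx0 k v n) (halg : ∀ g : Ω, IsAlgebraic E g)
    (P : (Fin n → Ω) → Prop) {a : Fin n} {x : Ω}
    (hP : ∀ w, GenSys v E w → P w → w a = x → ∀ b, ∃ q : ℕ, 0 < q ∧ v (w b) = q * v x)
    (hPk : ∀ w w', P w → w a = x → GenSys v E w' → w' a = x → P w')
    {w : Fin n → Ω} (hw : GenSys v E w) (hPw : P w) (hwa : w a = x) (N : ℕ) :
    ∃ w' : Fin n → Ω, GenSys v E w' ∧ P w' ∧ w' a = x ∧
      ∀ b, b ≠ a → ∃ p : k[X], w b = aeval x p + x ^ N * w' b := by
  induction N with
  | zero => exact ⟨w, hw, hPw, hwa, fun b _ => ⟨0, by simp⟩⟩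
  | succ N ih =>
    obtain ⟨w', hw', hP', hwa', hexp⟩ := ih
    have hx0 : x ≠ 0 := hwa' ▸ ne_of_gen h halg hw'.gen a
    have hxpos : 0 < v x := hwa' ▸ hw'.val_pos h halg a
    have key : ∀ b, ∃ q : ℕ, ∃ c : k, 0 < q ∧ VPos v (w' b / x ^ q - algebraMap k Ω c) := by
      intro b
      obtain ⟨q, hq, hv⟩ := hP w' hw' hP' hwa' b
      have hb0 := ne_of_gen h halg hw'.gen b
      obtain ⟨c, -, hc⟩ := h.res (w' b / x ^ q) (div_ne_zero hb0 (pow_ne_zero q hx0)) (by
        rw [v.map_div hb0 (pow_ne_zero q hx0), v.map_pow hx0, hv, sub_self])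
      exact ⟨q, c, hq, hc⟩
    choose q c hq hc using key
    let w'' : Fin n → Ω := fun b => if b = a then x else (w' b - algebraMap k Ω (c b) * x ^ q b) / x
    have hwa'' : w'' a = x := if_pos rfl
    have hw''b : ∀ b, b ≠ a → w'' b = (w' b - algebraMap k Ω (c b) * x ^ q b) / x :=
      fun b hb => if_neg hb
    have hback : ∀ b, b ≠ a → w' b = algebraMap k Ω (c b) * x ^ q b + x * w'' b := by
      intro b hb
      rw [hw''b b hb, mul_div_cancel₀ _ hx0]
      ring
    have hG : GenSys v E w'' := by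
      refine ⟨?_, ?_⟩
      · rw [← hw'.gen]
        apply le_antisymm
        · rw [IntermediateField.adjoin_le_iff]
          rintro _ ⟨b, rfl⟩
          have hx : x ∈ IntermediateField.adjoin k (Set.range w') :=
            IntermediateField.subset_adjoin _ _ ⟨a, hwa'⟩
          by_cases hb : b = a
          · subst hb
            rw [hwa'']
            exact hx
          · rw [hw''b b hb]
            exact div_mem (sub_mem (IntermediateField.subset_adjoin _ _ ⟨b, rfl⟩)
              (mul_mem (IntermediateField.algebraMap_mem _ _) (pow_mem hx _))) hx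
        · rw [IntermediateField.adjoin_le_iff]
          rintro _ ⟨b, rfl⟩
          have hx : x ∈ IntermediateField.adjoin k (Set.range w'') :=
            IntermediateField.subset_adjoin _ _ ⟨a, hwa''⟩
          by_cases hb : b = a
          · subst hb
            rw [hwa']
            exact hx
          · rw [hback b hb]
            exact add_mem (mul_mem (IntermediateField.algebraMap_mem _ _) (pow_mem hx _))
              (mul_mem hx (IntermediateField.subset_adjoin _ _ ⟨b, rfl⟩))
      · intro b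
        by_cases hb : b = a
        · subst hb
          rw [hwa'']
          exact fun _ => hxpos
        · have h1 : w'' b = x ^ (q b - 1) * (w' b / x ^ q b - algebraMap k Ω (c b)) := by
            obtain ⟨m, hm⟩ : ∃ m, q b = m + 1 := ⟨q b - 1, by have := hq b; omega⟩
            rw [hw''b b hb, hm, Nat.add_sub_cancel]
            field_simp
            ring
          rw [h1]
          refine VPos.mul' ?_ (hc b)
          intro _
          rw [v.map_pow hx0]
          positivity
    refine ⟨w'', hG, hPk w' w'' hP' hwa' hG hwa'', hwa'', ?_⟩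
    intro b hb
    obtain ⟨p, hp⟩ := hexp b hb
    refine ⟨p + C (c b) * X ^ (N + q b), ?_⟩
    rw [hp, hback b hb]
    simp only [_root_.map_add, _root_.map_mul, aeval_C, _root_.map_pow, aeval_X]
    ring

/-- Expansion to order `N` of the polynomials in the coordinates. -/
theorem adjoin_expand (htriv : ∀ c : k, c ≠ 0 → v (algebraMap k Ω c) = 0) {w : Fin n → Ω}
    {a : Fin n} {x : Ω} (hwa : w a = x) (hx0 : x ≠ 0) (hxpos : 0 < v x) {N : ℕ}
    (hexp : ∀ b, b ≠ a → ∃ p : k[X], ∃ h : Ω, v.Ge 0 h ∧ w b = aeval x p + x ^ N * h)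
    {f : Ω} (hf : f ∈ Algebra.adjoin k (Set.range w)) :
    ∃ p : k[X], ∃ h : Ω, v.Ge 0 h ∧ f = aeval x p + x ^ N * h := by
  have hge : ∀ p : k[X], v.Ge 0 (aeval x p) := by
    intro p
    by_cases hp : p = 0
    · rw [hp, _root_.map_zero]
      exact RVal.Ge.zero
    · obtain ⟨-, e, he⟩ := val_aeval htriv hx0 hxpos hp
      intro _
      rw [he]
      positivity
  have hgx : v.Ge 0 (x ^ N) := by
    intro _
    rw [v.map_pow hx0]
    positivity
  induction hf using Algebra.adjoin_induction with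
  | mem y hy =>
    obtain ⟨b, rfl⟩ := hy
    by_cases hb : b = a
    · subst hb
      exact ⟨X, 0, RVal.Ge.zero, by rw [hwa]; simp⟩
    · exact hexp b hb
  | algebraMap c => exact ⟨C c, 0, RVal.Ge.zero, by simp⟩
  | add y z _ _ hy hz =>
    obtain ⟨p, h, hh, rfl⟩ := hy
    obtain ⟨p', h', hh', rfl⟩ := hz
    exact ⟨p + p', h + h', hh.add hh', by rw [_root_.map_add]; ring⟩
  | mul y z _ _ hy hz =>
    obtain ⟨p, h, hh, rfl⟩ := hy
    obtain ⟨p', h', hh', rfl⟩ := hz
    refine ⟨p * p', aeval x p * h' + h * aeval x p' + x ^ N * (h * h'), ?_, by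
      rw [_root_.map_mul]; ring⟩
    have h1 := (hge p).mul hh'
    have h2 := hh.mul (hge p')
    have h3 := hgx.mul (hh.mul hh')
    rw [add_zero] at h1 h2
    rw [add_zero, add_zero] at h3
    exact (h1.add h2).add h3

/-- The Perron argument. -/
theorem perron (h : Ctx0 k v n) (halg : ∀ g : Ω, IsAlgebraic E g) {w : Fin n → Ω}
    (hw : GenSys v E w) {a₀ : Fin n} {η : ℝ} (hη : v (w a₀) = η)
    (hcyc : ∃ c : ℝ, 0 < c ∧ ∀ f ∈ E, f ≠ 0 → OnL η (v f) → ∃ l : ℤ, v f = l * c)
    (hne : ∃ f ∈ E, f ≠ 0 ∧ ¬ OnL η (v f)) :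
    ∃ w' : Fin n → Ω, GenSys v E w' ∧ Indep2 v w' := by
  classical
  by_contra hcon
  push Not at hcon
  obtain ⟨c, hc, hcyc⟩ := hcyc
  have hmemE : ∀ w : Fin n → Ω, GenSys v E w → ∀ i, w i ∈ E := fun w hw i => by
    rw [← hw.gen]
    exact IntermediateField.subset_adjoin _ _ ⟨i, rfl⟩
  have hall : ∀ w : Fin n → Ω, GenSys v E w → (∃ i, OnL η (v (w i))) →
      ∀ i, OnL η (v (w i)) := fun w hw ⟨i, hi⟩ j =>
    onL_of_not_indep h halg hw (hcon w hw) hi j
  have hnat : ∀ w : Fin n → Ω, GenSys v E w → (∃ i, OnL η (v (w i))) →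
      ∀ i, ∃ m : ℕ, 0 < m ∧ v (w i) = m * c := by
    intro w hw hi i
    obtain ⟨l, hl⟩ := hcyc _ (hmemE w hw i) (ne_of_gen h halg hw.gen i) (hall w hw hi i)
    have h1 := hw.val_pos h halg i
    have h2 : (0 : ℝ) < l := by
      rw [hl] at h1
      exact (pos_iff_pos_of_mul_pos h1).2 hc
    have h3 : 0 < l := by exact_mod_cast h2
    refine ⟨l.toNat, by omega, ?_⟩
    have h4 : ((l.toNat : ℕ) : ℤ) = l := Int.toNat_of_nonneg h3.le
    have h5 : ((l.toNat : ℕ) : ℝ) = (l : ℝ) := by exact_mod_cast h4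
    rw [hl, h5]
  -- the minimal value
  have hex : ∃ m : ℕ, 0 < m ∧ ∃ w : Fin n → Ω, GenSys v E w ∧ (∃ i, OnL η (v (w i))) ∧
      ∃ i, v (w i) = m * c := by
    have h0 : ∃ i, OnL η (v (w i)) := ⟨a₀, by rw [hη]; exact OnL.self η⟩
    obtain ⟨m, hm, hv⟩ := hnat w hw h0 a₀
    exact ⟨m, hm, w, hw, h0, a₀, hv⟩
  obtain ⟨hm0, w₁, hw₁, hon₁, a, hva⟩ := Nat.find_spec hex
  set m := Nat.find hex with hm
  have hmin : ∀ m' : ℕ, 0 < m' → m' < m → ∀ w : Fin n → Ω, GenSys v E w →
      (∃ i, OnL η (v (w i))) → ∀ i, v (w i) ≠ m' * c := by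
    intro m' hm' hlt w hw hon i hv
    exact Nat.find_min hex hlt ⟨hm', w, hw, hon, i, hv⟩
  set x := w₁ a with hx
  have hx0 : x ≠ 0 := ne_of_gen h halg hw₁.gen a
  have hxpos : 0 < v x := hw₁.val_pos h halg a
  have hxL : OnL η (v x) := hall w₁ hw₁ hon₁ a
  have hdvd : ∀ w : Fin n → Ω, GenSys v E w → True → w a = x → ∀ b, ∃ q : ℕ, 0 < q ∧
      v (w b) = q * v x := by
    intro w hw _ hwa b
    have hon : ∃ i, OnL η (v (w i)) := ⟨a, by rw [hwa]; exact hxL⟩
    obtain ⟨mb, hmb, hvb⟩ := hnat w hw hon b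
    have hdm := Nat.div_add_mod mb m
    have hmle : m ≤ mb := by
      by_contra hlt
      push Not at hlt
      exact hmin mb hmb hlt w hw hon b hvb
    have hmod : mb % m = 0 := by
      by_contra hr
      have hr' : 0 < mb % m := Nat.pos_of_ne_zero hr
      have hlt : mb % m < m := Nat.mod_lt _ hm0
      have hab : a ≠ b := by
        rintro rfl
        rw [hwa, hva] at hvb
        have h1 : (m : ℝ) = mb := mul_right_cancel₀ hc.ne' hvb
        have h2 : m = mb := by exact_mod_cast h1
        rw [← h2, Nat.mod_self] at hr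
        exact hr rfl
      have hq : ((mb / m : ℕ) : ℝ) * v (w a) < v (w b) := by
        rw [hwa, hva, hvb]
        have h1 : (m : ℝ) * (mb / m : ℕ) < mb := by
          have h2 : m * (mb / m) < mb := by omega
          exact_mod_cast h2
        nlinarith
      have hG := hw.div hab h halg (mb / m) hq
      refine hmin (mb % m) hr' hlt _ hG ⟨a, ?_⟩ b ?_
      · rw [Function.update_of_ne hab, hwa]
        exact hxL
      · rw [Function.update_self]
        have ha0 := ne_of_gen h halg hw.gen a
        have hb0 := ne_of_gen h halg hw.gen b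
        rw [v.map_div hb0 (pow_ne_zero _ ha0), v.map_pow ha0, hwa, hva, hvb]
        have h1 : (m : ℝ) * (mb / m : ℕ) + (mb % m : ℕ) = mb := by exact_mod_cast hdm
        linear_combination (-c) * h1
    refine ⟨mb / m, Nat.div_pos hmle hm0, ?_⟩
    rw [hvb, hva]
    have h1 : (m : ℝ) * (mb / m : ℕ) = mb := by
      have h2 : m * (mb / m) = mb := by omega
      exact_mod_cast h2
    linear_combination (-c) * h1
  -- all polynomials in the coordinates have values in `ℤ v(x)`
  have hpoly : ∀ f ∈ Algebra.adjoin k (Set.range w₁), f ≠ 0 → OnL η (v f) := by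
    intro f hf hf0
    obtain ⟨N, hN⟩ := exists_nat_gt (v f / v x)
    have hN' : v f < N * v x := by rwa [div_lt_iff₀ hxpos] at hN
    obtain ⟨w', hw', -, hwa', hexp⟩ := perron_expand h halg (fun _ => True) hdvd
      (fun _ _ _ _ _ _ => trivial) hw₁ trivial hx.symm N
    obtain ⟨p, g, hg, hfe⟩ := adjoin_expand (v := v) h.triv (w := w₁) (a := a) hx.symm hx0 hxpos
      (N := N) (fun b hb => by
        obtain ⟨p, hp⟩ := hexp b hb
        exact ⟨p, w' b, (hw'.pos b).ge, hp⟩) hf
    have hp0 : p ≠ 0 := by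
      rintro rfl
      rw [_root_.map_zero, zero_add] at hfe
      have hg0 : g ≠ 0 := by
        rintro rfl
        rw [mul_zero] at hfe
        exact hf0 hfe
      rw [hfe, v.map_mul (pow_ne_zero _ hx0) hg0, v.map_pow hx0] at hN'
      have := hg hg0
      linarith
    obtain ⟨h1, e, he⟩ := val_aeval h.triv hx0 hxpos hp0
    by_cases hg0 : g = 0
    · rw [hfe, hg0, mul_zero, add_zero, he]
      exact_mod_cast hxL.int_mul e
    have h2 : x ^ N * g ≠ 0 := mul_ne_zero (pow_ne_zero _ hx0) hg0
    have h3 : (N : ℝ) * v x ≤ v (x ^ N * g) := by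
      rw [v.map_mul (pow_ne_zero _ hx0) hg0, v.map_pow hx0]
      have := hg hg0
      linarith
    have h4 : v (aeval x p) < v (x ^ N * g) := by
      by_contra hcon
      push Not at hcon
      have h5 := v.map_add h1 h2 (by rw [← hfe]; exact hf0)
      rw [← hfe, min_eq_right hcon] at h5
      linarith
    rw [hfe, (v.add_of_lt h1 h2 h4).2, he]
    exact_mod_cast hxL.int_mul e
  obtain ⟨f, hfE, hf0, hfL⟩ := hne
  rw [← hw₁.gen, IntermediateField.mem_adjoin_iff_div] at hfE
  obtain ⟨r, hr, s, hs, rfl⟩ := hfE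
  have hr0 : r ≠ 0 := by rintro rfl; simp at hf0
  have hs0 : s ≠ 0 := by rintro rfl; simp at hf0
  apply hfL
  rw [v.map_div hr0 hs0, sub_eq_add_neg]
  refine (hpoly r hr hr0).add ?_
  have := (hpoly s hs hs0).int_mul (-1)
  simpa using this

end Main

end Pool.Agent.LU3
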