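import Pool.Agent.Lib.LU3_h26.Perron

/-!
# DefectTwo, entry: the structure of `K₀ = L(z)`

All values of `L` are on the line of `η`, `Q` is a polynomial of least degree whose value `τ` is
not on this line. Then every value of `L(z)` is `j τ` modulo the line, and every line which is not
the line of `η` meets the value group of `L(z)` in a cyclic group.
-/

set_option autoImplicit false

open Polynomial

namespace Pool.Agent.LU3

open Pool.Agent.H15JM (RVal)
open Pool.Agent.LU1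

universe u

variable {k Ω : Type u} [Field k] [Field Ω] [Algebra k Ω] {v : RVal Ω}

theorem OnL.zero (η : ℝ) : OnL η 0 := ⟨1, one_pos, 0, by simp⟩

theorem OnL.neg {η γ : ℝ} (h : OnL η γ) : OnL η (-γ) := by
  have := h.int_mul (-1)
  simpa using this

theorem OnL.sub {η γ δ : ℝ} (h : OnL η γ) (h' : OnL η δ) : OnL η (γ - δ) := by
  rw [sub_eq_add_neg]
  exact h.add h'.neg

theorem OnL.neg_iff {η γ : ℝ} : OnL η (-γ) ↔ OnL η γ :=
  ⟨fun h => by simpa using h.neg, fun h => h.neg⟩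

/-- If `j τ` is on the line but `τ` is not then `j = 0`. -/
theorem eq_zero_of_onL {η τ : ℝ} (h : ¬ OnL η τ) {j : ℤ} (hj : OnL η (j * τ)) : j = 0 := by
  by_contra h0
  exact h (OnL.of_int_mul h0 hj)

/-- Two different lines meet in `0`. -/
theorem eq_zero_of_two {η η' γ : ℝ} (h : ¬ OnL η η') (h1 : OnL η γ) (h2 : OnL η' γ) : γ = 0 := by
  obtain ⟨m, hm, l, hl⟩ := h1
  obtain ⟨m', hm', l', hl'⟩ := h2
  by_contra h0
  have hm0 : (m' : ℝ) ≠ 0 := by exact_mod_cast hm'.ne'
  have hl0 : l' ≠ 0 := by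
    rintro rfl
    rw [Int.cast_zero, zero_mul] at hl'
    exact (mul_ne_zero hm0 h0) hl'
  apply h
  refine OnL.of_int_mul (l := l' * m) (mul_ne_zero hl0 (by exact_mod_cast hm.ne')) ?_
  refine ⟨1, one_pos, m' * l, ?_⟩
  push_cast
  linear_combination (m' : ℝ) * hl - (m : ℝ) * hl'

/-- The data of the structure lemma. -/
structure Key (v : RVal Ω) (L : IntermediateField k Ω) (η : ℝ) (z : Ω) (Q : L[X]) : Prop where
  tr : ∀ P : L[X], P ≠ 0 → aeval z P ≠ 0
  line : ∀ f ∈ L, f ≠ 0 → OnL η (v f)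
  monic : Q.Monic
  off : ¬ OnL η (v (aeval z Q))
  low : ∀ e : L[X], e ≠ 0 → e.natDegree < Q.natDegree → OnL η (v (aeval z e))

variable {L : IntermediateField k Ω} {η : ℝ} {z : Ω}

/-- `L(z)` inside `Ω`. -/
def Lz (L : IntermediateField k Ω) (z : Ω) : IntermediateField k Ω :=
  (IntermediateField.adjoin L {z}).restrictScalars k

theorem mem_Lz {f : Ω} : f ∈ Lz L z ↔ ∃ P R : L[X], f = aeval z P / aeval z R := by
  unfold Lz
  rw [IntermediateField.mem_restrictScalars, IntermediateField.mem_adjoin_simple_iff]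

theorem le_Lz : L ≤ Lz L z := by
  intro f hf
  rw [mem_Lz]
  exact ⟨C ⟨f, hf⟩, 1, by simp⟩

theorem self_mem_Lz : z ∈ Lz L z := by
  rw [mem_Lz]
  exact ⟨X, 1, by simp⟩

theorem aeval_mem_Lz (P : L[X]) : aeval z P ∈ Lz L z := by
  rw [mem_Lz]
  exact ⟨P, 1, by simp⟩

/-- Existence of the key polynomial. -/
theorem Key.exists (htr : ∀ P : L[X], P ≠ 0 → aeval z P ≠ 0)
    (hline : ∀ f ∈ L, f ≠ 0 → OnL η (v f))
    (hoff : ∃ f ∈ Lz L z, f ≠ 0 ∧ ¬ OnL η (v f)) : ∃ Q : L[X], Key v L η z Q := by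
  classical
  have hex : ∃ d : ℕ, ∃ P : L[X], P ≠ 0 ∧ ¬ OnL η (v (aeval z P)) ∧ P.natDegree = d := by
    obtain ⟨f, hf, hf0, hfo⟩ := hoff
    obtain ⟨P, R, rfl⟩ := mem_Lz.1 hf
    have hP : aeval z P ≠ 0 := by intro h; rw [h, zero_div] at hf0; exact hf0 rfl
    have hR : aeval z R ≠ 0 := by intro h; rw [h, div_zero] at hf0; exact hf0 rfl
    have hP0 : P ≠ 0 := by rintro rfl; simp at hP
    have hR0 : R ≠ 0 := by rintro rfl; simp at hR
    by_contra hcon
    push Not at hcon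
    apply hfo
    rw [v.map_div hP hR]
    have h1 : OnL η (v (aeval z P)) := by
      by_contra h
      exact hcon P.natDegree P hP0 h rfl
    have h2 : OnL η (v (aeval z R)) := by
      by_contra h
      exact hcon R.natDegree R hR0 h rfl
    exact h1.sub h2
  obtain ⟨P, hP0, hPo, hPd⟩ := Nat.find_spec hex
  have hmin : ∀ e : L[X], e ≠ 0 → e.natDegree < P.natDegree → OnL η (v (aeval z e)) := by
    intro e he hlt
    by_contra h
    rw [hPd] at hlt
    exact Nat.find_min hex hlt ⟨e, he, h, rfl⟩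
  have hlc : P.leadingCoeff ≠ 0 := leadingCoeff_ne_zero.2 hP0
  have hlc' : (P.leadingCoeff⁻¹ : L) ≠ 0 := inv_ne_zero hlc
  have hv : v (aeval z (C P.leadingCoeff⁻¹ * P)) =
      v ((P.leadingCoeff⁻¹ : L) : Ω) + v (aeval z P) := by
    rw [_root_.map_mul, aeval_C, v.map_mul ?_ (htr P hP0)]
    · rfl
    · simpa using hlc'
  have hd : (C P.leadingCoeff⁻¹ * P).natDegree = P.natDegree := natDegree_C_mul hlc'
  refine ⟨C P.leadingCoeff⁻¹ * P, htr, hline, ?_, ?_, ?_⟩
  · rw [Monic, leadingCoeff_mul, leadingCoeff_C, inv_mul_cancel₀ hlc]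
  · rw [hv]
    intro h
    apply hPo
    have h1 : OnL η (v ((P.leadingCoeff⁻¹ : L) : Ω)) :=
      hline _ (P.leadingCoeff⁻¹ : L).2 (by simpa using hlc')
    have h2 := h.sub h1
    rwa [add_sub_cancel_left] at h2
  · intro e he hlt
    rw [hd] at hlt
    exact hmin e he hlt

namespace Key

variable {Q : L[X]} (h : Key v L η z Q)
include h

theorem pos_degree : 0 < Q.natDegree := by
  by_contra h0
  have h1 : Q.natDegree = 0 := by omega
  have h2 : Q = 1 := h.monic.natDegree_eq_zero.1 h1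
  apply h.off
  rw [h2, _root_.map_one, v.map_one]
  exact OnL.zero η

theorem ne_one : Q ≠ 1 := by
  rintro rfl
  have := h.pos_degree
  simp at this

theorem Q_ne : aeval z Q ≠ 0 := h.tr Q h.monic.ne_zero

/-- Every value of `L[z]` is `j τ` modulo the line. -/
theorem val_poly (P : L[X]) (hP : P ≠ 0) : ∃ j : ℕ, OnL η (v (aeval z P) - j * v (aeval z Q)) := by
  induction hd : P.natDegree using Nat.strong_induction_on generalizing P with
  | _ d ih =>
    by_cases hlt : P.natDegree < Q.natDegree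
    · refine ⟨0, ?_⟩
      rw [Nat.cast_zero, zero_mul, sub_zero]
      exact h.low P hP hlt
    push Not at hlt
    have hdiv : P.natDegree = (P /ₘ Q).natDegree + Q.natDegree := by
      rw [natDegree_divByMonic P h.monic]
      omega
    have hpos := h.pos_degree
    have hP1 : P /ₘ Q ≠ 0 := by
      intro h0
      rw [divByMonic_eq_zero_iff h.monic] at h0
      exact absurd (natDegree_le_natDegree (le_refl _) |>.trans hlt |>.trans (le_refl _))
        (by
          have := natDegree_lt_natDegree hP h0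
          omega)
    obtain ⟨j, hj⟩ := ih (P /ₘ Q).natDegree (by omega) (P /ₘ Q) hP1 rfl
    have hA : aeval z (P /ₘ Q) ≠ 0 := h.tr _ hP1
    have hAQ : aeval z (P /ₘ Q) * aeval z Q ≠ 0 := mul_ne_zero hA h.Q_ne
    have hsum : aeval z P = aeval z (P /ₘ Q) * aeval z Q + aeval z (P %ₘ Q) := by
      conv_lhs => rw [← modByMonic_add_div P Q]
      rw [_root_.map_add, _root_.map_mul]
      ring
    have hvAQ : OnL η (v (aeval z (P /ₘ Q) * aeval z Q) - ((j + 1 : ℕ) : ℝ) * v (aeval z Q)) := by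
      rw [v.map_mul hA h.Q_ne]
      have : v (aeval z (P /ₘ Q)) + v (aeval z Q) - ((j + 1 : ℕ) : ℝ) * v (aeval z Q) =
          v (aeval z (P /ₘ Q)) - j * v (aeval z Q) := by push_cast; ring
      rw [this]
      exact hj
    by_cases hr : P %ₘ Q = 0
    · refine ⟨j + 1, ?_⟩
      rw [hsum, hr, _root_.map_zero, add_zero]
      exact hvAQ
    have hrd : (P %ₘ Q).natDegree < Q.natDegree := natDegree_modByMonic_lt P h.monic h.ne_one
    have hr0 : aeval z (P %ₘ Q) ≠ 0 := h.tr _ hr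
    have hrL := h.low _ hr hrd
    have hne : v (aeval z (P /ₘ Q) * aeval z Q) ≠ v (aeval z (P %ₘ Q)) := by
      intro heq
      rw [heq] at hvAQ
      have h1 := hrL.sub hvAQ
      rw [sub_sub_cancel] at h1
      have h2 : OnL η (((j + 1 : ℕ) : ℤ) * v (aeval z Q)) := by exact_mod_cast h1
      have h3 := eq_zero_of_onL h.off h2
      omega
    rcases lt_or_gt_of_ne hne with hlt' | hlt'
    · refine ⟨j + 1, ?_⟩
      rw [hsum, (v.add_of_lt hAQ hr0 hlt').2]
      exact hvAQ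
    · refine ⟨0, ?_⟩
      rw [hsum, add_comm, (v.add_of_lt hr0 hAQ hlt').2, Nat.cast_zero, zero_mul, sub_zero]
      exact hrL

/-- Every value of `L(z)` is `j τ` modulo the line. -/
theorem val_Lz {f : Ω} (hf : f ∈ Lz L z) (hf0 : f ≠ 0) :
    ∃ j : ℤ, OnL η (v f - j * v (aeval z Q)) := by
  obtain ⟨P, R, rfl⟩ := mem_Lz.1 hf
  have hP : aeval z P ≠ 0 := by intro h; rw [h, zero_div] at hf0; exact hf0 rfl
  have hR : aeval z R ≠ 0 := by intro h; rw [h, div_zero] at hf0; exact hf0 rfl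
  have hP0 : P ≠ 0 := by rintro rfl; simp at hP
  have hR0 : R ≠ 0 := by rintro rfl; simp at hR
  obtain ⟨j, hj⟩ := h.val_poly P hP0
  obtain ⟨i, hi⟩ := h.val_poly R hR0
  refine ⟨j - i, ?_⟩
  rw [v.map_div hP hR]
  have h1 := hj.sub hi
  have h2 : v (aeval z P) - v (aeval z R) - ((j - i : ℤ) : ℝ) * v (aeval z Q) =
      v (aeval z P) - j * v (aeval z Q) - (v (aeval z R) - i * v (aeval z Q)) := by
    push_cast; ring
  rw [h2]
  exact h1

/-- Every line which is not the line of `η` meets the value group of `L(z)` in a cyclic group. -/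
theorem cyclic {η' : ℝ} (hη' : ¬ OnL η η') {f₀ : Ω} (hf₀ : f₀ ∈ Lz L z) (hf₀0 : f₀ ≠ 0)
    (hv₀ : v f₀ = η') :
    ∃ c : ℝ, 0 < c ∧ ∀ f ∈ Lz L z, f ≠ 0 → OnL η' (v f) → ∃ l : ℤ, v f = l * c := by
  classical
  set τ := v (aeval z Q) with hτ
  have hex : ∃ m : ℕ, 0 < m ∧ ∃ f ∈ Lz L z, f ≠ 0 ∧ OnL η' (v f) ∧ OnL η (v f - m * τ) := by
    obtain ⟨j, hj⟩ := h.val_Lz hf₀ hf₀0
    rw [← hτ] at hj
    have hj0 : j ≠ 0 := by
      rintro rfl
      rw [Int.cast_zero, zero_mul, sub_zero, hv₀] at hj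
      exact hη' hj
    rcases lt_or_gt_of_ne hj0 with hj1 | hj1
    · refine ⟨(-j).toNat, by omega, f₀⁻¹, inv_mem hf₀, inv_ne_zero hf₀0, ?_, ?_⟩
      · rw [v.map_inv hf₀0, hv₀]
        exact (OnL.self η').neg
      · have h1 : (((-j).toNat : ℕ) : ℤ) = -j := Int.toNat_of_nonneg (by omega)
        have h2 : (((-j).toNat : ℕ) : ℝ) = -(j : ℝ) := by exact_mod_cast h1
        rw [h2, v.map_inv hf₀0]
        have h3 : -v f₀ - -(j : ℝ) * τ = -(v f₀ - j * τ) := by ring
        rw [h3]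
        exact hj.neg
    · refine ⟨j.toNat, by omega, f₀, hf₀, hf₀0, by rw [hv₀]; exact OnL.self η', ?_⟩
      have h1 : ((j.toNat : ℕ) : ℤ) = j := Int.toNat_of_nonneg (by omega)
      have h2 : ((j.toNat : ℕ) : ℝ) = (j : ℝ) := by exact_mod_cast h1
      rw [h2]
      exact hj
  obtain ⟨hm0, g, hg, hg0, hgL', hgL⟩ := Nat.find_spec hex
  set m := Nat.find hex with hm
  have hvg : v g ≠ 0 := by
    intro h0
    rw [h0, zero_sub, OnL.neg_iff] at hgL
    have h1 : OnL η ((m : ℤ) * τ) := by exact_mod_cast hgL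
    have := eq_zero_of_onL h.off h1
    omega
  have key : ∀ f ∈ Lz L z, f ≠ 0 → OnL η' (v f) → ∃ l : ℤ, v f = l * v g := by
    intro f hf hf0 hfL'
    obtain ⟨j, hj⟩ := h.val_Lz hf hf0
    rw [← hτ] at hj
    set q := j / (m : ℤ) with hq
    have hr : j = m * q + j % (m : ℤ) := (Int.mul_ediv_add_emod j m).symm
    have hr0 : 0 ≤ j % (m : ℤ) := Int.emod_nonneg j (by omega)
    have hr1 : j % (m : ℤ) < m := Int.emod_lt_of_pos j (by omega)
    have hgq : g ^ q ≠ 0 := zpow_ne_zero q hg0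
    have hmem : f / g ^ q ∈ Lz L z := div_mem hf (zpow_mem hg q)
    have hne : f / g ^ q ≠ 0 := div_ne_zero hf0 hgq
    have hval : v (f / g ^ q) = v f - q * v g := by rw [v.map_div hf0 hgq, v.map_zpow hg0]
    have hL' : OnL η' (v (f / g ^ q)) := by
      rw [hval]
      exact hfL'.sub (hgL'.int_mul q)
    have hrz : j % (m : ℤ) = 0 := by
      by_contra hne'
      have hlt : (j % (m : ℤ)).toNat < m := by omega
      refine Nat.find_min hex hlt ⟨by omega, f / g ^ q, hmem, hne, hL', ?_⟩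
      have h1 : (((j % (m : ℤ)).toNat : ℕ) : ℤ) = j % (m : ℤ) := Int.toNat_of_nonneg hr0
      have h2 : (((j % (m : ℤ)).toNat : ℕ) : ℝ) = ((j % (m : ℤ) : ℤ) : ℝ) := by exact_mod_cast h1
      have h3 : (j : ℝ) = m * q + ((j % (m : ℤ) : ℤ) : ℝ) := by exact_mod_cast hr
      rw [hval, h2]
      have h4 : v f - q * v g - ((j % (m : ℤ) : ℤ) : ℝ) * τ =
          v f - j * τ - q * (v g - m * τ) := by
        rw [h3]; ring
      rw [h4]
      exact hj.sub (hgL.int_mul q)
    refine ⟨q, ?_⟩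
    have h3 : (j : ℝ) = m * q := by
      have : j = m * q := by rw [hrz, add_zero] at hr; exact hr
      exact_mod_cast this
    have h4 : OnL η (v (f / g ^ q)) := by
      rw [hval]
      have h5 : v f - q * v g = v f - j * τ - q * (v g - m * τ) := by rw [h3]; ring
      rw [h5]
      exact hj.sub (hgL.int_mul q)
    have h5 := eq_zero_of_two hη' h4 hL'
    rw [hval] at h5
    linarith
  rcases lt_or_gt_of_ne hvg with h0 | h0
  · refine ⟨-v g, by linarith, fun f hf hf0 hfL => ?_⟩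
    obtain ⟨l, hl⟩ := key f hf hf0 hfL
    refine ⟨-l, ?_⟩
    rw [hl]
    push_cast
    ring
  · exact ⟨v g, h0, key⟩

end Key

end Pool.Agent.LU3
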